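import Pool.Agent.P.MP_dba3d2_lcT.Main

/-! The definable subgroups of a hyperbolic group. -/

open Pool.Agent.P.MP_dba3d2_lc

theorem Pool.Agent.Results.MP_dba3d2_lc.Malcev.result (G : Type) [Group G] (hG : IsHyperbolic G)
    (H : Subgroup G) :
    IsDefinable (H : Set G) ↔ VirtCyclic H ∨ ∃ K : Subgroup G, Finite K ∧
      Subgroup.centralizer (K : Set G) ≤ H ∧ H ≤ Subgroup.normalizer (K : Set G) :=
  Fo.of_HG (P := fun G _ => ∀ H : Subgroup G,
    IsDefinable (H : Set G) ↔ VirtCyclic H ∨ ∃ K : Subgroup G, Finite K ∧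
      Subgroup.centralizer (K : Set G) ≤ H ∧ H ≤ Subgroup.normalizer (K : Set G))
    Fo.malcev G hG H
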