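import Pool.Agent.P.MP_dba3d2_lcM.All

/-! Every hyperbolic group is stable. -/

open Pool.Agent.P.MP_dba3d2_lc

theorem Pool.Agent.Results.MP_dba3d2_lc.Stable.result.{u} (G : Type u) [Group G] :
    IsHyperbolic G → IsStable G :=
  univ all_FIN0 G
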