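import Pool.Agent.P.MP_dba3d2_lcT.Gen

/-! The extensions of a hyperbolic group by a letter over finite subgroups that are elementary. -/

open Pool.Agent.P.MP_dba3d2_lc

theorem Pool.Agent.Results.MP_dba3d2_lc.Tarski.result (G : Type) [Group G] (hG : IsHyperbolic G)
    (A B : Subgroup G) (φ : A ≃* B) (hA : Finite A) :
    IsElementary (HNNExtension.of : G →* HNNExtension G A B φ) ↔
      (∃ g : G, ∀ a : A, (φ a : G) = g * a * g⁻¹) ∧
      ¬ VirtCyclic (Subgroup.normalizer (A : Set G)) ∧ ∀ R : Subgroup G, Finite R →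
        Subgroup.normalizer (A : Set G) ≤ Subgroup.normalizer (R : Set G) → R ≤ A :=
  Fo.of_HG (P := fun G _ => ∀ (A B : Subgroup G) (φ : A ≃* B), Finite A →
    (IsElementary (HNNExtension.of : G →* HNNExtension G A B φ) ↔
      (∃ g : G, ∀ a : A, (φ a : G) = g * a * g⁻¹) ∧
      ¬ VirtCyclic (Subgroup.normalizer (A : Set G)) ∧ ∀ R : Subgroup G, Finite R →
        Subgroup.normalizer (A : Set G) ≤ Subgroup.normalizer (R : Set G) → R ≤ A))
    Fo.tarski_gen G hG A B φ hA
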